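import Mathlib

/-!
# The abc inequality over a number field: definitions
-/

namespace Pool.Agent.N746.NF

open NumberField IsDedekindDomain

variable {K : Type} [Field K] [NumberField K]

/-- the height `h (P)` of the point `P` with coordinates `x` (the height of Mathlib is relative to
`K`) -/
noncomputable def height (x : Fin 3 → K) : ℝ :=
  Height.logHeight x / (Module.finrank ℚ K : ℝ)

/-- the radical `rad (P)` of the point `P` with coordinates `x`: the sum of `log N(v) / d` over the
primes `v` at which the valuations of the coordinates are not all equal -/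
noncomputable def rad (x : Fin 3 → K) : ℝ :=
  (∑ᶠ v ∈ {v : HeightOneSpectrum (𝓞 K) | ∃ i j, v.valuation K (x i) ≠ v.valuation K (x j)},
    Real.log (Ideal.absNorm v.asIdeal : ℝ)) / (Module.finrank ℚ K : ℝ)

/-- the abc conjecture over `K` -/
def ABCK (K : Type) [Field K] [NumberField K] : Prop :=
  ∀ ε : ℝ, 0 < ε → ∃ C : ℝ, ∀ x : Fin 3 → K, x 0 + x 1 + x 2 = 0 → x 0 * x 1 * x 2 ≠ 0 →
    height x < (1 + ε) * rad x + C

/-- the `y ≠ 0, 1` with denominators given by `f`, that is `max 1 |y|_v = f v` at all finite places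
`v`, for which the point `P = (y : 1 - y : -1)` satisfies `H ≤ h (P) ≤ H + L` and
`h (P) ≥ (1 + ε) rad (P) + C` -/
def Exc (ε C H L : ℝ) (f : FinitePlace K → ℝ) : Set K :=
  {y | y ≠ 0 ∧ y ≠ 1 ∧ (∀ v : FinitePlace K, max 1 (v y) = f v) ∧
    H ≤ height ![y, 1 - y, -1] ∧ height ![y, 1 - y, -1] ≤ H + L ∧
    (1 + ε) * rad ![y, 1 - y, -1] + C ≤ height ![y, 1 - y, -1]}

end Pool.Agent.N746.NF
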