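import Mathlib
import Pool.Agent.N746.NF.Defs
import Pool.Agent.N746.Self.Words

/-!
# The maps `y ↦ 1 - y ^ m` over a number field
-/

namespace Pool.Agent.N746.NF

open NumberField IsDedekindDomain Height Polynomial

variable {K : Type} [Field K] [NumberField K]

theorem norm_pos (v : HeightOneSpectrum (𝓞 K)) : 0 < Real.log (Ideal.absNorm v.asIdeal : ℝ) := by
  apply Real.log_pos
  exact_mod_cast HeightOneSpectrum.one_lt_absNorm v

/-- the finite place in terms of the valuation -/
theorem mk_apply' (v : HeightOneSpectrum (𝓞 K)) (z : K) :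
    FinitePlace.mk v z = (WithZeroMulInt.toNNReal (HeightOneSpectrum.absNorm_ne_zero v)
      (v.valuation K z) : ℝ) := by
  rw [FinitePlace.mk_apply, FinitePlace.norm_embedding]
  rfl

theorem mk_lt_iff (v : HeightOneSpectrum (𝓞 K)) (y z : K) :
    FinitePlace.mk v y < FinitePlace.mk v z ↔ v.valuation K y < v.valuation K z := by
  have hmono : StrictMono (WithZeroMulInt.toNNReal
      (HeightOneSpectrum.absNorm_ne_zero v)) :=
    WithZeroMulInt.toNNReal_strictMono (HeightOneSpectrum.one_lt_absNorm_nnreal v)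
  rw [mk_apply', mk_apply', NNReal.coe_lt_coe]
  exact hmono.lt_iff_lt

theorem mk_ge (v : HeightOneSpectrum (𝓞 K)) (z : K) (hz : z ≠ 0) (h : v.valuation K z < 1) :
    Real.log (Ideal.absNorm v.asIdeal : ℝ) ≤ Real.posLog (FinitePlace.mk v z⁻¹) := by
  have h0 : v.valuation K z ≠ 0 := (Valuation.ne_zero_iff _).2 hz
  obtain ⟨n, hn⟩ : ∃ n : ℤ, v.valuation K z = WithZero.exp n := by
    exact ⟨WithZero.log (v.valuation K z), (WithZero.exp_log h0).symm⟩
  have hn1 : n ≤ -1 := by
    rw [hn, ← WithZero.exp_zero, WithZero.exp_lt_exp] at h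
    omega
  have hN : (1 : ℝ) < (Ideal.absNorm v.asIdeal : ℝ) := by
    exact_mod_cast HeightOneSpectrum.one_lt_absNorm v
  have hval : (FinitePlace.mk v z : ℝ) = (Ideal.absNorm v.asIdeal : ℝ) ^ n := by
    rw [mk_apply', hn]
    simp [WithZeroMulInt.toNNReal, WithZero.exp]
  have hinv : (FinitePlace.mk v z⁻¹ : ℝ) = (Ideal.absNorm v.asIdeal : ℝ) ^ (-n) := by
    rw [map_inv₀, hval, zpow_neg]
  rw [hinv]
  have h1 : (Ideal.absNorm v.asIdeal : ℝ) ≤ (Ideal.absNorm v.asIdeal : ℝ) ^ (-n) := by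
    calc (Ideal.absNorm v.asIdeal : ℝ) = (Ideal.absNorm v.asIdeal : ℝ) ^ (1 : ℤ) := (zpow_one _).symm
      _ ≤ _ := zpow_le_zpow_right₀ hN.le (by omega)
  calc Real.log (Ideal.absNorm v.asIdeal : ℝ) ≤ Real.log ((Ideal.absNorm v.asIdeal : ℝ) ^ (-n)) :=
        Real.log_le_log (by linarith) h1
    _ ≤ _ := le_max_right _ _

theorem finite_ne (z : K) (hz : z ≠ 0) : {v : HeightOneSpectrum (𝓞 K) | v.valuation K z ≠ 1}.Finite := by
  have h1 : {w : FinitePlace K | w z ≠ 1}.Finite := FinitePlace.hasFiniteMulSupport hz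
  have h2 : (FinitePlace.mk (K := K) ⁻¹' {w : FinitePlace K | w z ≠ 1}).Finite :=
    h1.preimage (fun a _ b _ h => FinitePlace.mk_eq_iff.1 h)
  refine h2.subset ?_
  intro v hv
  show FinitePlace.mk v z ≠ 1
  intro h
  apply hv
  have e1 : ¬ FinitePlace.mk v z < FinitePlace.mk v 1 := by rw [h, map_one]; exact lt_irrefl _
  have e2 : ¬ FinitePlace.mk v 1 < FinitePlace.mk v z := by rw [h, map_one]; exact lt_irrefl _
  rw [mk_lt_iff, map_one] at e1 e2
  exact le_antisymm (not_lt.1 e2) (not_lt.1 e1)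

/-- the primes in the numerator of `z` -/
theorem small_le (z : K) (hz : z ≠ 0) :
    ∑ᶠ v ∈ {v : HeightOneSpectrum (𝓞 K) | v.valuation K z < 1}, Real.log (Ideal.absNorm v.asIdeal : ℝ) ≤
      logHeight₁ z := by
  rw [← logHeight₁_inv, NumberField.logHeight₁_eq]
  have harch : 0 ≤ ∑ v : InfinitePlace K, (v.mult : ℝ) * Real.posLog (v z⁻¹) :=
    Finset.sum_nonneg fun v _ => mul_nonneg (Nat.cast_nonneg _) Real.posLog_nonneg
  have hequiv : ∑ᶠ w : FinitePlace K, Real.posLog (w z⁻¹) =
      ∑ᶠ v : HeightOneSpectrum (𝓞 K), Real.posLog (FinitePlace.mk v z⁻¹) :=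
    (finsum_comp_equiv (f := fun w : FinitePlace K => Real.posLog (w z⁻¹))
      FinitePlace.equivHeightOneSpectrum.symm).symm
  rw [hequiv]
  have hle : ∑ᶠ v ∈ {v : HeightOneSpectrum (𝓞 K) | v.valuation K z < 1},
      Real.log (Ideal.absNorm v.asIdeal : ℝ) ≤
      ∑ᶠ v : HeightOneSpectrum (𝓞 K), Real.posLog (FinitePlace.mk v z⁻¹) := by
    rw [finsum_mem_def]
    apply finsum_le_finsum'
    · refine (finite_ne z hz).subset ?_
      intro v hv
      rw [Function.mem_support, Set.indicator_apply] at hv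
      by_contra h
      have h' : v.valuation K z = 1 := by
        by_contra h2; exact h h2
      rw [if_neg] at hv
      · exact hv rfl
      · show ¬ (v.valuation K z < 1)
        rw [h']
        exact lt_irrefl _
    · refine (finite_ne z hz).subset ?_
      intro v hv
      rw [Function.mem_support] at hv
      intro h
      apply hv
      have e1 : ¬ FinitePlace.mk v z < FinitePlace.mk v 1 := by
        rw [mk_lt_iff, map_one, h]; exact lt_irrefl _
      have e2 : ¬ FinitePlace.mk v 1 < FinitePlace.mk v z := by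
        rw [mk_lt_iff, map_one, h]; exact lt_irrefl _
      have e3 : FinitePlace.mk v z = 1 := by
        rw [map_one] at e1 e2
        exact le_antisymm (not_lt.1 e2) (not_lt.1 e1)
      rw [map_inv₀, e3, inv_one]
      simp
    · intro v
      show Set.indicator _ _ v ≤ _
      rw [Set.indicator_apply]
      split_ifs with h
      · exact mk_ge v z hz h
      · exact Real.posLog_nonneg
  linarith

/-- the primes of the point `(y : 1 - y : -1)` -/
def S (y : K) : Set (HeightOneSpectrum (𝓞 K)) :=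
  {v | v.valuation K y ≠ 1 ∨ v.valuation K (1 - y) ≠ 1}

theorem S_finite (y : K) (h0 : y ≠ 0) (h1 : y ≠ 1) : (S y).Finite := by
  have : S y = {v | v.valuation K y ≠ 1} ∪ {v | v.valuation K (1 - y) ≠ 1} := rfl
  rw [this]
  exact (finite_ne y h0).union (finite_ne (1 - y) (sub_ne_zero.2 (Ne.symm h1)))

/-- the unnormalised radical -/
noncomputable def Rr (y : K) : ℝ := ∑ᶠ v ∈ S y, Real.log (Ideal.absNorm v.asIdeal : ℝ)

theorem finsum_mem_le_add (A B C : Set (HeightOneSpectrum (𝓞 K))) (hB : B.Finite) (hC : C.Finite)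
    (h : A ⊆ B ∪ C) :
    ∑ᶠ v ∈ A, Real.log (Ideal.absNorm v.asIdeal : ℝ) ≤
      ∑ᶠ v ∈ B, Real.log (Ideal.absNorm v.asIdeal : ℝ) +
      ∑ᶠ v ∈ C, Real.log (Ideal.absNorm v.asIdeal : ℝ) := by
  classical
  have hA : A.Finite := (hB.union hC).subset h
  rw [finsum_mem_eq_finite_toFinset_sum _ hA, finsum_mem_eq_finite_toFinset_sum _ hB,
    finsum_mem_eq_finite_toFinset_sum _ hC]
  calc _ ≤ ∑ v ∈ hB.toFinset ∪ hC.toFinset, Real.log (Ideal.absNorm v.asIdeal : ℝ) := by
        apply Finset.sum_le_sum_of_subset_of_nonneg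
        · intro v hv
          rw [Finset.mem_union, Set.Finite.mem_toFinset, Set.Finite.mem_toFinset]
          exact h ((Set.Finite.mem_toFinset _).1 hv)
        · intro v _ _
          exact (norm_pos v).le
    _ ≤ _ := by
        rw [← Finset.sum_union_inter]
        have : 0 ≤ ∑ v ∈ hB.toFinset ∩ hC.toFinset, Real.log (Ideal.absNorm v.asIdeal : ℝ) :=
          Finset.sum_nonneg fun v _ => (norm_pos v).le
        linarith

/-- the height of `1 + y + ⋯ + y ^ (m - 1)` -/
theorem height_geom (m : ℕ) (hm : 1 ≤ m) :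
    ∃ C : ℝ, ∀ y : K, logHeight₁ (∑ i ∈ Finset.range m, y ^ i) ≤ (m - 1 : ℝ) * logHeight₁ y + C := by
  set p : Fin 2 → MvPolynomial (Fin 2) K :=
    ![∑ i ∈ Finset.range m, MvPolynomial.X 0 ^ i * MvPolynomial.X 1 ^ (m - 1 - i),
      MvPolynomial.X 1 ^ (m - 1)] with hp
  have hhom : ∀ i, (p i).IsHomogeneous (m - 1) := by
    intro i
    fin_cases i
    · show (∑ i ∈ Finset.range m, MvPolynomial.X 0 ^ i * MvPolynomial.X 1 ^ (m - 1 - i) :
        MvPolynomial (Fin 2) K).IsHomogeneous (m - 1)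
      apply MvPolynomial.IsHomogeneous.sum
      intro i hi
      rw [Finset.mem_range] at hi
      have h1 := (MvPolynomial.isHomogeneous_X_pow (R := K) (0 : Fin 2) i).mul
        (MvPolynomial.isHomogeneous_X_pow (R := K) (1 : Fin 2) (m - 1 - i))
      rwa [show i + (m - 1 - i) = m - 1 by omega] at h1
    · exact MvPolynomial.isHomogeneous_X_pow _ _
  obtain ⟨C, hC⟩ := logHeight_eval_le' hhom
  refine ⟨C, fun y => ?_⟩
  have h1 := hC ![y, 1]
  have e : (fun j => MvPolynomial.eval ![y, 1] (p j)) = ![∑ i ∈ Finset.range m, y ^ i, 1] := by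
    funext j
    fin_cases j
    · simp [hp]
    · simp [hp]
  rw [e, ← logHeight₁_eq_logHeight, ← logHeight₁_eq_logHeight, Nat.cast_sub hm, Nat.cast_one] at h1
  linarith

theorem step_upper (m : ℕ) (y : K) :
    logHeight₁ (1 - y ^ m) ≤ m * logHeight₁ y + totalWeight K * Real.log 2 := by
  have h := logHeight₁_sub_le (1 : K) (y ^ m)
  rw [logHeight₁_one, logHeight₁_pow] at h
  linarith

theorem step_lower (m : ℕ) (y : K) :
    m * logHeight₁ y ≤ logHeight₁ (1 - y ^ m) + totalWeight K * Real.log 2 := by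
  have h := logHeight₁_sub_le (1 : K) (1 - y ^ m)
  rw [logHeight₁_one, sub_sub_cancel, logHeight₁_pow] at h
  linarith

/-- the radical after one step -/
theorem step_rad (m : ℕ) (hm : 1 ≤ m) :
    ∃ C : ℝ, ∀ y : K, y ≠ 0 → y ≠ 1 → 1 - y ^ m ≠ 0 →
      Rr (1 - y ^ m) ≤ Rr y + (m - 1 : ℝ) * logHeight₁ y + C := by
  obtain ⟨C, hC⟩ := height_geom (K := K) m hm
  refine ⟨C, fun y h0 h1 h2 => ?_⟩
  set Φ : K := ∑ i ∈ Finset.range m, y ^ i with hΦ
  have hgeom : (1 - y) * Φ = 1 - y ^ m := by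
    rw [hΦ, mul_comm, Finset.range_eq_Ico, ← Finset.range_eq_Ico]
    have := geom_sum_mul_neg y m
    exact this
  have hΦ0 : Φ ≠ 0 := by
    intro h
    rw [h, mul_zero] at hgeom
    exact h2 hgeom.symm
  have hfin : {v : HeightOneSpectrum (𝓞 K) | v.valuation K Φ < 1}.Finite :=
    (finite_ne Φ hΦ0).subset fun v hv => (ne_of_lt hv)
  have hsub : S (1 - y ^ m) ⊆ S y ∪ {v : HeightOneSpectrum (𝓞 K) | v.valuation K Φ < 1} := by
    intro v hv
    by_contra hn
    rw [Set.mem_union, not_or] at hn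
    obtain ⟨hn1, hn2⟩ := hn
    have hy : v.valuation K y = 1 := by
      by_contra h; exact hn1 (Or.inl h)
    have hy1 : v.valuation K (1 - y) = 1 := by
      by_contra h; exact hn1 (Or.inr h)
    have hym : v.valuation K (y ^ m) = 1 := by rw [map_pow, hy, one_pow]
    have hΦle : v.valuation K Φ ≤ 1 := by
      rw [hΦ]
      apply Valuation.map_sum_le
      intro i _
      rw [map_pow, hy, one_pow]
    have hΦ1 : v.valuation K Φ = 1 := le_antisymm hΦle (not_lt.1 hn2)
    rcases hv with hv | hv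
    · apply hv
      rw [← hgeom, map_mul, hy1, hΦ1, one_mul]
    · apply hv
      rw [sub_sub_cancel, hym]
  calc Rr (1 - y ^ m) ≤ Rr y + ∑ᶠ v ∈ {v : HeightOneSpectrum (𝓞 K) | v.valuation K Φ < 1},
        Real.log (Ideal.absNorm v.asIdeal : ℝ) :=
        finsum_mem_le_add _ _ _ (S_finite y h0 h1) hfin hsub
    _ ≤ Rr y + logHeight₁ Φ := by linarith [small_le Φ hΦ0]
    _ ≤ _ := by linarith [hC y]

/-- the denominators after one step -/
theorem step_den (m : ℕ) (hm : 1 ≤ m) (y : K) (v : FinitePlace K) :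
    max 1 (v (1 - y ^ m)) = (max 1 (v y)) ^ m := by
  have hna : ∀ a b : K, v (a + b) ≤ max (v a) (v b) := FinitePlace.add_le v
  have hneg : ∀ a : K, v (-a) = v a := fun a => map_neg_eq_map v a
  have hsub : ∀ a b : K, v (a - b) ≤ max (v a) (v b) := fun a b => by
    rw [sub_eq_add_neg]
    exact (hna _ _).trans (by rw [hneg])
  rcases le_or_gt (v y) 1 with h | h
  · rw [max_eq_left h, one_pow]
    apply max_eq_left
    refine (hsub _ _).trans ?_
    rw [map_one, map_pow]
    exact max_le le_rfl (pow_le_one₀ (apply_nonneg v y) h)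
  · rw [max_eq_right h.le]
    have h1 : 1 < v y ^ m := one_lt_pow₀ h (by omega)
    have h2 : v (1 - y ^ m) ≤ v y ^ m := by
      refine (hsub _ _).trans ?_
      rw [map_one, map_pow]
      exact max_le h1.le le_rfl
    have h3 : v y ^ m ≤ max 1 (v (1 - y ^ m)) := by
      have h4 := hsub 1 (1 - y ^ m)
      rwa [sub_sub_cancel, map_pow, map_one] at h4
    have h4 : 1 < v (1 - y ^ m) := by
      rcases le_max_iff.1 h3 with h5 | h5
      · exact absurd h5 (not_le.2 h1)
      · exact h1.trans_le h5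
    rw [max_eq_right h4.le] at h3 ⊢
    exact le_antisymm h2 h3

end Pool.Agent.N746.NF
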