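import Mathlib
import Pool.Agent.N746.NF.Step

/-!
# Words in the maps `y ↦ 1 - y ^ m` over a number field
-/

namespace Pool.Agent.N746.NF

open NumberField IsDedekindDomain Height Polynomial

variable {K : Type} [Field K] [NumberField K]

/-- the action of words, the head first -/
def run : List ℕ → K → K
  | [], y => y
  | m :: w, y => run w (1 - y ^ m)

theorem run_aeval (w : List ℕ) : ∀ y : K, run w y = aeval y (Self.wp w) := by
  induction w with
  | nil => intro y; simp [run, Self.wp]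
  | cons m w ih =>
    intro y
    rw [run, ih, Self.wp, aeval_comp]
    simp

theorem run_den (w : List ℕ) (hw : ∀ m ∈ w, 1 ≤ m) (v : FinitePlace K) : ∀ y : K,
    max 1 (v (run w y)) = (max 1 (v y)) ^ w.prod := by
  induction w with
  | nil => intro y; simp [run]
  | cons m w ih =>
    intro y
    rw [run, ih (fun k hk => hw k (by simp [hk])), step_den m (hw m (by simp)), List.prod_cons,
      ← pow_mul]

omit [NumberField K] in
theorem fibre_finite (m : ℕ) (hm : 1 ≤ m) (z : K) : ((fun y : K => 1 - y ^ m) ⁻¹' {z}).Finite := by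
  classical
  set p : K[X] := X ^ m - C (1 - z) with hp
  have hp0 : p ≠ 0 := X_pow_sub_C_ne_zero (by omega) _
  refine (p.roots.toFinset.finite_toSet).subset ?_
  intro y hy
  rw [Set.mem_preimage, Set.mem_singleton_iff] at hy
  rw [Finset.mem_coe, Multiset.mem_toFinset, mem_roots hp0, IsRoot.def, hp]
  simp only [eval_sub, eval_pow, eval_X, eval_C]
  rw [← hy]
  ring

theorem run_spec (w : List ℕ) (hw : ∀ m ∈ w, 1 ≤ m) :
    ∃ (C : ℝ) (F : Set K), F.Finite ∧ ∀ y, y ∉ F → y ≠ 0 ∧ y ≠ 1 ∧ run w y ≠ 0 ∧ run w y ≠ 1 ∧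
      w.prod * logHeight₁ y - C ≤ logHeight₁ (run w y) ∧
      logHeight₁ (run w y) ≤ w.prod * logHeight₁ y + C ∧
      Rr (run w y) ≤ Rr y + (w.prod - 1 : ℝ) * logHeight₁ y + C := by
  induction w with
  | nil =>
    refine ⟨0, {0, 1}, Set.toFinite _, fun y hy => ?_⟩
    simp only [Set.mem_insert_iff, Set.mem_singleton_iff, not_or] at hy
    refine ⟨hy.1, hy.2, hy.1, hy.2, ?_, ?_, ?_⟩ <;> simp [run]
  | cons m w ih =>
    have hm : 1 ≤ m := hw m (by simp)
    have hw' : ∀ k ∈ w, 1 ≤ k := fun k hk => hw k (by simp [hk])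
    obtain ⟨C, F, hF, h⟩ := ih hw'
    obtain ⟨C₁, hC₁⟩ := step_rad (K := K) m hm
    have hp : 1 ≤ w.prod := by
      apply Nat.pos_of_ne_zero
      intro h
      have := hw' 0 (List.prod_eq_zero_iff.1 h)
      omega
    have hpR : (1 : ℝ) ≤ w.prod := by exact_mod_cast hp
    set T : ℝ := totalWeight K * Real.log 2 with hT
    have hT0 : 0 ≤ T := by positivity
    refine ⟨C + w.prod * T + |C₁|, {0, 1} ∪ (fun y : K => 1 - y ^ m) ⁻¹' F,
      (Set.toFinite _).union (hF.preimage' fun z _ => fibre_finite m hm z), fun y hy => ?_⟩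
    rw [Set.mem_union, not_or] at hy
    obtain ⟨hy1, hy2⟩ := hy
    simp only [Set.mem_insert_iff, Set.mem_singleton_iff, not_or] at hy1
    obtain ⟨h1, h2, h3, h4, h5, h6, h7⟩ := h (1 - y ^ m) hy2
    have hu := step_upper m y
    have hl := step_lower m y
    have hr := hC₁ y hy1.1 hy1.2 h1
    have hCC := le_abs_self C₁
    have hCn := abs_nonneg C₁
    refine ⟨hy1.1, hy1.2, h3, h4, ?_, ?_, ?_⟩
    · rw [run, List.prod_cons, Nat.cast_mul]
      have : (w.prod : ℝ) * (m * logHeight₁ y) ≤ w.prod * (logHeight₁ (1 - y ^ m) + T) :=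
        mul_le_mul_of_nonneg_left hl (by linarith)
      nlinarith
    · rw [run, List.prod_cons, Nat.cast_mul]
      have : (w.prod : ℝ) * logHeight₁ (1 - y ^ m) ≤ w.prod * (m * logHeight₁ y + T) :=
        mul_le_mul_of_nonneg_left hu (by linarith)
      nlinarith
    · rw [run, List.prod_cons, Nat.cast_mul]
      have : ((w.prod : ℝ) - 1) * logHeight₁ (1 - y ^ m) ≤ (w.prod - 1) * (m * logHeight₁ y + T) :=
        mul_le_mul_of_nonneg_left hu (by linarith)
      nlinarith

/-! ### the point `(y : 1 - y : -1)` -/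

theorem pt_rad (y : K) : rad ![y, 1 - y, -1] = Rr y / (Module.finrank ℚ K : ℝ) := by
  have hset : {v : HeightOneSpectrum (𝓞 K) | ∃ i j, v.valuation K ((![y, 1 - y, -1] : Fin 3 → K) i) ≠
      v.valuation K ((![y, 1 - y, -1] : Fin 3 → K) j)} = S y := by
    ext v
    show (∃ i j, _) ↔ (v.valuation K y ≠ 1 ∨ v.valuation K (1 - y) ≠ 1)
    have e0 : (![y, 1 - y, -1] : Fin 3 → K) 0 = y := rfl
    have e1 : (![y, 1 - y, -1] : Fin 3 → K) 1 = 1 - y := rfl
    have e2 : (![y, 1 - y, -1] : Fin 3 → K) 2 = -1 := rfl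
    have h1 : v.valuation K (-1) = 1 := by rw [Valuation.map_neg, map_one]
    constructor
    · rintro ⟨i, j, hij⟩
      by_contra hn
      push Not at hn
      obtain ⟨ha, hb⟩ := hn
      apply hij
      have : ∀ i : Fin 3, v.valuation K ((![y, 1 - y, -1] : Fin 3 → K) i) = 1 := by
        intro i
        fin_cases i
        · exact ha
        · exact hb
        · exact h1
      rw [this i, this j]
    · rintro (h | h)
      · exact ⟨0, 2, by rw [e0, e2, h1]; exact h⟩
      · exact ⟨1, 2, by rw [e1, e2, h1]; exact h⟩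
  rw [rad, Rr, hset]

theorem pt_height : ∃ C : ℝ, 0 ≤ C ∧ ∀ y : K,
    logHeight₁ y - C ≤ logHeight (![y, 1 - y, -1] : Fin 3 → K) ∧
      logHeight (![y, 1 - y, -1] : Fin 3 → K) ≤ logHeight₁ y + C := by
  set p : Fin 3 → MvPolynomial (Fin 2) K :=
    ![MvPolynomial.X 0, MvPolynomial.X 1 - MvPolynomial.X 0, - MvPolynomial.X 1] with hp
  have hhom : ∀ i, (p i).IsHomogeneous 1 := by
    intro i
    fin_cases i
    · exact MvPolynomial.isHomogeneous_X _ _
    · exact (MvPolynomial.isHomogeneous_X _ _).sub (MvPolynomial.isHomogeneous_X _ _)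
    · exact (MvPolynomial.isHomogeneous_X _ _).neg
  obtain ⟨C, hC⟩ := logHeight_eval_le' hhom
  set q : Fin 2 → MvPolynomial (Fin 3) K := ![MvPolynomial.X 0, - MvPolynomial.X 2] with hq
  have hhom' : ∀ i, (q i).IsHomogeneous 1 := by
    intro i
    fin_cases i
    · exact MvPolynomial.isHomogeneous_X _ _
    · exact (MvPolynomial.isHomogeneous_X _ _).neg
  obtain ⟨C', hC'⟩ := logHeight_eval_le' hhom'
  refine ⟨max (max C C') 0, le_max_right _ _, fun y => ?_⟩
  have h1 := hC ![y, 1]
  have e : (fun j => MvPolynomial.eval ![y, 1] (p j)) = ![y, 1 - y, -1] := by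
    funext j
    fin_cases j <;> simp [hp]
  rw [e, ← logHeight₁_eq_logHeight] at h1
  have h2 := hC' ![y, 1 - y, -1]
  have e' : (fun j => MvPolynomial.eval ![y, 1 - y, -1] (q j)) = ![y, 1] := by
    funext j
    fin_cases j <;> simp [hq]
  rw [e', ← logHeight₁_eq_logHeight] at h2
  have h3 : C ≤ max (max C C') 0 := (le_max_left _ _).trans (le_max_left _ _)
  have h4 : C' ≤ max (max C C') 0 := (le_max_right _ _).trans (le_max_left _ _)
  push_cast at h1 h2
  constructor <;> linarith

/-- every point of the line `a + b + c = 0` -/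
theorem point_of (x : Fin 3 → K) (hx : x 0 + x 1 + x 2 = 0) (hp : x 0 * x 1 * x 2 ≠ 0) :
    ∃ y : K, y ≠ 0 ∧ y ≠ 1 ∧ height x = height ![y, 1 - y, -1] ∧ rad x = rad ![y, 1 - y, -1] := by
  have h2 : x 2 ≠ 0 := right_ne_zero_of_mul hp
  have h01 := left_ne_zero_of_mul hp
  have h0 : x 0 ≠ 0 := left_ne_zero_of_mul h01
  have h1 : x 1 ≠ 0 := right_ne_zero_of_mul h01
  have hx' : x = (-x 2) • ![-(x 0 / x 2), 1 - -(x 0 / x 2), -1] := by
    funext i
    fin_cases i
    · simp only [Fin.zero_eta, Pi.smul_apply, Matrix.cons_val_zero, smul_eq_mul]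
      field_simp
    · show x 1 = (-x 2) * (1 - -(x 0 / x 2))
      field_simp
      linear_combination hx
    · show x 2 = (-x 2) * (-1)
      ring
  refine ⟨-(x 0 / x 2), neg_ne_zero.2 (div_ne_zero h0 h2), ?_, ?_, ?_⟩
  · intro h
    have : x 1 = 0 := by
      have h3 : x 0 = -x 2 := by
        field_simp at h
        linear_combination -h
      linear_combination hx - h3
    exact h1 this
  · rw [height, height]
    congr 1
    conv_lhs => rw [hx']
    exact logHeight_smul_eq_logHeight _ (neg_ne_zero.2 h2)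
  · have hv : ∀ v : HeightOneSpectrum (𝓞 K), v.valuation K (-x 2) ≠ 0 := fun v =>
      (Valuation.ne_zero_iff _).2 (neg_ne_zero.2 h2)
    have key : ∀ (v : HeightOneSpectrum (𝓞 K)) i, v.valuation K (x i) =
        v.valuation K (-x 2) * v.valuation K ((![-(x 0 / x 2), 1 - -(x 0 / x 2), -1] : Fin 3 → K) i) := by
      intro v i
      rw [← map_mul]
      conv_lhs => rw [hx']
      rfl
    have hset : {v : HeightOneSpectrum (𝓞 K) | ∃ i j, v.valuation K (x i) ≠ v.valuation K (x j)} =
        {v : HeightOneSpectrum (𝓞 K) | ∃ i j,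
          v.valuation K ((![-(x 0 / x 2), 1 - -(x 0 / x 2), -1] : Fin 3 → K) i) ≠
          v.valuation K ((![-(x 0 / x 2), 1 - -(x 0 / x 2), -1] : Fin 3 → K) j)} := by
      ext v
      simp only [Set.mem_ofPred_eq]
      constructor
      · rintro ⟨i, j, h⟩
        exact ⟨i, j, fun h' => h (by rw [key, key, h'])⟩
      · rintro ⟨i, j, h⟩
        refine ⟨i, j, fun h' => h ?_⟩
        rw [key, key v j] at h'
        exact mul_left_cancel₀ (hv v) h'
    rw [rad, rad, hset]

end Pool.Agent.N746.NF
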