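import Mathlib
import Pool.Agent.N746.NF.Run
import Pool.Agent.N746.Self.Multi

/-!
# Amplification of failures of the abc inequality over a number field
-/

namespace Pool.Agent.N746.NF

open NumberField IsDedekindDomain Height Polynomial Finset

variable {K : Type} [Field K] [NumberField K]

theorem Rr_nonneg (y : K) : 0 ≤ Rr y := by
  rw [Rr]
  exact finsum_nonneg fun v => finsum_nonneg fun _ => (norm_pos v).le

/-- the heights and radicals along a word, normalised -/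
theorem run_pt (w : List ℕ) (hw : ∀ m ∈ w, 1 ≤ m) :
    ∃ (C : ℝ) (F : Set K), F.Finite ∧ 0 ≤ C ∧ ∀ y, y ∉ F → run w y ≠ 0 ∧ run w y ≠ 1 ∧
      w.prod * height ![y, 1 - y, -1] - C ≤ height ![run w y, 1 - run w y, -1] ∧
      height ![run w y, 1 - run w y, -1] ≤ w.prod * height ![y, 1 - y, -1] + C ∧
      rad ![run w y, 1 - run w y, -1] ≤ rad ![y, 1 - y, -1] +
        (w.prod - 1 : ℝ) * height ![y, 1 - y, -1] + C := by
  obtain ⟨C₀, hC₀, hpt⟩ := pt_height (K := K)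
  obtain ⟨C, F, hF, h⟩ := run_spec (K := K) w hw
  have hp : 1 ≤ w.prod := by
    apply Nat.pos_of_ne_zero
    intro h
    have := hw 0 (List.prod_eq_zero_iff.1 h)
    omega
  have hpR : (1 : ℝ) ≤ w.prod := by exact_mod_cast hp
  have hd : (1 : ℝ) ≤ (Module.finrank ℚ K : ℝ) := by
    have : 0 < Module.finrank ℚ K := Module.finrank_pos
    exact_mod_cast this
  set d : ℝ := (Module.finrank ℚ K : ℝ) with hdd
  have hd0 : 0 < d := by linarith
  refine ⟨(|C| + w.prod * C₀ + C₀) / d, F, hF, by positivity, fun y hy => ?_⟩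
  obtain ⟨h1, h2, h3, h4, h5, h6, h7⟩ := h y hy
  obtain ⟨a1, a2⟩ := hpt y
  obtain ⟨b1, b2⟩ := hpt (run w y)
  have hCa := le_abs_self C
  refine ⟨h3, h4, ?_, ?_, ?_⟩
  · rw [height, height, ← hdd]
    have key : w.prod * logHeight (![y, 1 - y, -1] : Fin 3 → K) - (|C| + w.prod * C₀ + C₀) ≤
        logHeight (![run w y, 1 - run w y, -1] : Fin 3 → K) := by nlinarith
    calc _ = (w.prod * logHeight (![y, 1 - y, -1] : Fin 3 → K) - (|C| + w.prod * C₀ + C₀)) / d := by ring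
      _ ≤ _ := div_le_div_of_nonneg_right key hd0.le
  · rw [height, height, ← hdd]
    have key : logHeight (![run w y, 1 - run w y, -1] : Fin 3 → K) ≤
        w.prod * logHeight (![y, 1 - y, -1] : Fin 3 → K) + (|C| + w.prod * C₀ + C₀) := by nlinarith
    calc _ ≤ (w.prod * logHeight (![y, 1 - y, -1] : Fin 3 → K) + (|C| + w.prod * C₀ + C₀)) / d :=
          div_le_div_of_nonneg_right key hd0.le
      _ = _ := by ring
  · rw [pt_rad, pt_rad, height, ← hdd]
    have key : Rr (run w y) ≤ Rr y + (w.prod - 1 : ℝ) * logHeight (![y, 1 - y, -1] : Fin 3 → K) +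
        (|C| + w.prod * C₀ + C₀) := by nlinarith
    calc _ ≤ (Rr y + (w.prod - 1 : ℝ) * logHeight (![y, 1 - y, -1] : Fin 3 → K) +
          (|C| + w.prod * C₀ + C₀)) / d := div_le_div_of_nonneg_right key hd0.le
      _ = _ := by ring

theorem pt_rad_nonneg (y : K) : 0 ≤ rad ![y, 1 - y, -1] := by
  rw [pt_rad]
  exact div_nonneg (Rr_nonneg y) (Nat.cast_nonneg _)

/-- finitely many words at once -/
theorem run_all (V : Finset (List ℕ)) (hV : ∀ w ∈ V, ∀ m ∈ w, 2 ≤ m) :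
    ∃ (C : ℝ) (F : Set K), F.Finite ∧ 0 ≤ C ∧ ∀ y, y ∉ F → (∀ w ∈ V, run w y ≠ 0 ∧ run w y ≠ 1 ∧
      w.prod * height ![y, 1 - y, -1] - C ≤ height ![run w y, 1 - run w y, -1] ∧
      height ![run w y, 1 - run w y, -1] ≤ w.prod * height ![y, 1 - y, -1] + C ∧
      rad ![run w y, 1 - run w y, -1] ≤ rad ![y, 1 - y, -1] +
        (w.prod - 1 : ℝ) * height ![y, 1 - y, -1] + C) ∧
      ∀ w ∈ V, ∀ w' ∈ V, run w y = run w' y → w = w' := by
  classical
  have h : ∀ w : List ℕ, ∃ (C : ℝ) (F : Set K), F.Finite ∧ 0 ≤ C ∧ (w ∈ V → ∀ y, y ∉ F →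
      run w y ≠ 0 ∧ run w y ≠ 1 ∧
      w.prod * height ![y, 1 - y, -1] - C ≤ height ![run w y, 1 - run w y, -1] ∧
      height ![run w y, 1 - run w y, -1] ≤ w.prod * height ![y, 1 - y, -1] + C ∧
      rad ![run w y, 1 - run w y, -1] ≤ rad ![y, 1 - y, -1] +
        (w.prod - 1 : ℝ) * height ![y, 1 - y, -1] + C) := by
    intro w
    by_cases hw : w ∈ V
    · obtain ⟨C, F, h1, h2, h3⟩ := run_pt (K := K) w (fun m hm => by have := hV w hw m hm; omega)
      exact ⟨C, F, h1, h2, fun _ => h3⟩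
    · exact ⟨0, ∅, Set.finite_empty, le_rfl, fun h => absurd h hw⟩
  choose C F hF hC h using h
  set Z : Finset K := (V ×ˢ V).biUnion fun p =>
    ((Self.wp p.1 - Self.wp p.2).map (algebraMap ℚ K)).roots.toFinset with hZ
  refine ⟨∑ w ∈ V, C w, (⋃ w ∈ V, F w) ∪ Z, (V.finite_toSet.biUnion fun w _ => hF w).union
    Z.finite_toSet, Finset.sum_nonneg fun w _ => hC w, fun y hy => ?_⟩
  rw [Set.mem_union, not_or] at hy
  obtain ⟨hy1, hy2⟩ := hy
  simp only [Set.mem_iUnion, not_exists] at hy1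
  refine ⟨fun w hw => ?_, fun w hw w' hw' heq => ?_⟩
  · obtain ⟨h1, h2, h3, h4, h5⟩ := h w hw y (hy1 w hw)
    have hCw : C w ≤ ∑ w ∈ V, C w := Finset.single_le_sum (fun w _ => hC w) hw
    exact ⟨h1, h2, by linarith, by linarith, by linarith⟩
  · by_contra hne
    apply hy2
    have hwp : Self.wp w - Self.wp w' ≠ 0 := fun he =>
      hne (Self.wp_inj w w' (hV w hw) (hV w' hw') (sub_eq_zero.1 he))
    rw [Finset.mem_coe, hZ, Finset.mem_biUnion]
    refine ⟨(w, w'), Finset.mk_mem_product hw hw', ?_⟩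
    rw [Multiset.mem_toFinset, mem_roots ((Polynomial.map_ne_zero_iff
      (algebraMap ℚ K).injective).2 hwp), IsRoot.def, eval_map_algebraMap, map_sub,
      ← run_aeval, ← run_aeval, heq, sub_self]

/-- one exception of large height produces many exceptions with the same denominators and about the
same height -/
theorem amplify (ε₀ : ℝ) (hε₀ : 0 < ε₀)
    (hbad : ∀ T : ℝ, ∃ y : K, y ≠ 0 ∧ y ≠ 1 ∧
      (1 + ε₀) * rad ![y, 1 - y, -1] + T ≤ height ![y, 1 - y, -1])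
    (D : ℕ) (hD : 1 ≤ D) (V : Finset (List ℕ)) (hV : ∀ w ∈ V, (∀ m ∈ w, 2 ≤ m) ∧ w.prod = D)
    (ε : ℝ) (hε : 0 < ε) (hεD : D * ε ≤ ε₀ / (1 + ε₀)) :
    ∃ L : ℝ, ∀ C : ℝ, ∃ (f : FinitePlace K → ℝ) (H : ℝ),
      (Exc ε C H L f).Finite → V.card ≤ (Exc ε C H L f).ncard := by
  classical
  obtain ⟨C₁, F, hF, hC₁, h⟩ := run_all (K := K) V (fun w hw => (hV w hw).1)
  refine ⟨2 * C₁, fun C => ?_⟩
  -- a bound for the heights on `F`
  obtain ⟨B, hB⟩ : ∃ B : ℝ, ∀ y ∈ F, height ![y, 1 - y, -1] ≤ B := by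
    obtain ⟨B, hB⟩ := (hF.image fun y : K => height ![y, 1 - y, -1]).bddAbove
    exact ⟨B, fun y hy => hB ⟨y, hy, rfl⟩⟩
  set ε₁ : ℝ := ε₀ / (1 + ε₀) with hε₁
  have hε₁0 : 0 < ε₁ := by positivity
  have hε₁1 : ε₁ < 1 := by rw [hε₁, div_lt_one (by linarith)]; linarith
  have hε₁e : (1 + ε₀) * (1 - ε₁) = 1 := by rw [hε₁]; field_simp; ring
  have hDR : (1 : ℝ) ≤ D := by exact_mod_cast hD
  set T : ℝ := |B| + 1 + (1 + ε₀) * ((1 + ε) * C₁ + |C| + C₁) with hT
  have hT0 : 0 ≤ T := by positivity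
  obtain ⟨y, hy0, hy1, hy⟩ := hbad T
  have hρ0 := pt_rad_nonneg y
  have hhT : T ≤ height ![y, 1 - y, -1] := by nlinarith
  have hyF : y ∉ F := by
    intro hmem
    have h1 := hB y hmem
    have h2 := le_abs_self B
    have h3 : |B| + 1 ≤ T := by
      rw [hT]
      have : 0 ≤ (1 + ε₀) * ((1 + ε) * C₁ + |C| + C₁) := by positivity
      linarith
    linarith
  obtain ⟨hall, hinj⟩ := h y hyF
  set η : ℝ := height ![y, 1 - y, -1] with hη
  set ρ : ℝ := rad ![y, 1 - y, -1] with hρ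
  have hη0 : 0 ≤ η := by linarith
  refine ⟨fun v => (max 1 (v y)) ^ D, D * η - C₁, fun hfin => ?_⟩
  have hmaps : ∀ w ∈ V, run w y ∈ Exc ε C (D * η - C₁) (2 * C₁) (fun v => (max 1 (v y)) ^ D) := by
    intro w hw
    obtain ⟨h1, h2, h3, h4, h5⟩ := hall w hw
    rw [(hV w hw).2] at h3 h4 h5
    refine ⟨h1, h2, fun v => ?_, h3, by linarith, ?_⟩
    · rw [run_den w (fun m hm => by have := (hV w hw).1 m hm; omega) v y, (hV w hw).2]
    · -- the inequality
      have e1 : ρ ≤ (1 - ε₁) * (η - T) := by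
        have e2 : (1 + ε₀) * ρ ≤ η - T := by linarith
        calc ρ = ((1 + ε₀) * (1 - ε₁)) * ρ := by rw [hε₁e, one_mul]
          _ = (1 - ε₁) * ((1 + ε₀) * ρ) := by ring
          _ ≤ _ := mul_le_mul_of_nonneg_left e2 (by linarith)
      have e3 : (1 + ε) * rad ![run w y, 1 - run w y, -1] ≤
          (1 + ε) * ((1 - ε₁) * (η - T) + (D - 1 : ℝ) * η + C₁) :=
        mul_le_mul_of_nonneg_left (by linarith) (by linarith)
      have e4 : (1 - ε₁) * T ≥ (1 + ε) * C₁ + |C| + C₁ := by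
        calc (1 - ε₁) * T ≥ (1 - ε₁) * ((1 + ε₀) * ((1 + ε) * C₁ + |C| + C₁)) := by
              apply mul_le_mul_of_nonneg_left _ (by linarith)
              rw [hT]
              have := abs_nonneg B
              linarith
          _ = ((1 + ε₀) * (1 - ε₁)) * ((1 + ε) * C₁ + |C| + C₁) := by ring
          _ = _ := by rw [hε₁e, one_mul]
      have e5 : (1 + ε) * ((1 - ε₁) * T) ≥ (1 - ε₁) * T := by
        have : 0 ≤ (1 - ε₁) * T := mul_nonneg (by linarith) hT0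
        nlinarith
      have e6 : (1 + ε) * (D - ε₁) ≤ D := by nlinarith [mul_pos hε hε₁0]
      have e7 : (1 + ε) * (D - ε₁) * η ≤ D * η := mul_le_mul_of_nonneg_right e6 hη0
      have e8 := le_abs_self C
      calc (1 + ε) * rad ![run w y, 1 - run w y, -1] + C
          ≤ (1 + ε) * ((1 - ε₁) * (η - T) + (D - 1 : ℝ) * η + C₁) + C := by linarith
        _ = (1 + ε) * (D - ε₁) * η - (1 + ε) * ((1 - ε₁) * T) + (1 + ε) * C₁ + C := by ring
        _ ≤ D * η - C₁ := by linarith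
        _ ≤ _ := h3
  calc V.card = (V.image fun w => run w y).card :=
        (Finset.card_image_of_injOn fun w hw w' hw' he => hinj w hw w' hw' he).symm
    _ = ((V.image fun w => run w y : Finset K) : Set K).ncard := (Set.ncard_coe_finset _).symm
    _ ≤ _ := by
        apply Set.ncard_le_ncard _ hfin
        intro q hq
        rw [Finset.mem_coe, Finset.mem_image] at hq
        obtain ⟨w, hw, rfl⟩ := hq
        exact hmaps w hw

variable (K) in
theorem multiplicity (s : ℝ) (hs0 : 0 ≤ s) (M : ℕ) (hs : 1 < ∑ m ∈ Icc 2 M, (m : ℝ) ^ (-s)) :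
    ABCK K ↔
      ∀ δ : ℝ, 0 < δ → ∃ ε : ℝ, 0 < ε ∧ ε < δ ∧ ∀ L : ℝ, ∃ C : ℝ, ∀ (f : FinitePlace K → ℝ) (H : ℝ),
        (Exc ε C H L f).Finite ∧ ((Exc ε C H L f).ncard : ℝ) < ε ^ (-s) := by
  constructor
  · intro h δ hδ
    obtain ⟨C, hC⟩ := h (δ / 2) (by positivity)
    refine ⟨δ / 2, by positivity, by linarith, fun L => ⟨C, fun f H => ?_⟩⟩
    have : Exc (K := K) (δ / 2) C H L f = ∅ := by
      rw [Set.eq_empty_iff_forall_notMem]
      rintro y ⟨h0, h1, -, -, -, h2⟩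
      have h3 := hC ![y, 1 - y, -1] (by simp) (by
        have : (1 - y) ≠ 0 := sub_ne_zero.2 (Ne.symm h1)
        simp [h0, this])
      linarith
    rw [this]
    refine ⟨Set.finite_empty, ?_⟩
    simp only [Set.ncard_empty, Nat.cast_zero]
    positivity
  · intro h
    by_contra hnot
    have hbad : ∃ ε₀ : ℝ, 0 < ε₀ ∧ ∀ T : ℝ, ∃ y : K, y ≠ 0 ∧ y ≠ 1 ∧
        (1 + ε₀) * rad ![y, 1 - y, -1] + T ≤ height ![y, 1 - y, -1] := by
      unfold ABCK at hnot
      push Not at hnot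
      obtain ⟨ε₀, hε₀, h1⟩ := hnot
      refine ⟨ε₀, hε₀, fun T => ?_⟩
      obtain ⟨x, h2, h3, h4⟩ := h1 T
      obtain ⟨y, h5, h6, h7, h8⟩ := point_of x h2 h3
      exact ⟨y, h5, h6, by rw [← h7, ← h8]; exact h4⟩
    obtain ⟨ε₀, hε₀, hbad⟩ := hbad
    obtain ⟨k, D, W, hW, hD2, hWD⟩ := Self.exists_words s M hs
    set ε₁ : ℝ := ε₀ / (1 + ε₀) with hε₁
    have hε₁0 : 0 < ε₁ := by positivity
    have hD0 : (0 : ℝ) < D := by exact_mod_cast (by omega : 0 < D)
    have hD1 : (1 : ℝ) < D := by exact_mod_cast (by omega : 1 < D)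
    have hDs : 0 < (D : ℝ) ^ s := by positivity
    set θ : ℝ := W.card / (D : ℝ) ^ s with hθ
    have hθ1 : 1 < θ := by rw [hθ, one_lt_div hDs]; exact hWD
    have hWθ : (W.card : ℝ) = θ * (D : ℝ) ^ s := by rw [hθ]; field_simp
    obtain ⟨j₀, hj₀⟩ := pow_unbounded_of_one_lt ((D / ε₁) ^ s) hθ1
    obtain ⟨ε, hε, hεδ, hB⟩ := h (ε₁ / D ^ (j₀ + 1)) (by positivity)
    have hεD : (D : ℝ) ^ (j₀ + 1) < ε₁ / ε := by
      rw [lt_div_iff₀ (by positivity)] at hεδ
      rw [lt_div_iff₀ hε]; linarith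
    have hex : ∃ j : ℕ, ε₁ / ε < (D : ℝ) ^ (j + 1) := by
      obtain ⟨j, hj⟩ := pow_unbounded_of_one_lt (ε₁ / ε) hD1
      exact ⟨j, hj.trans (pow_lt_pow_right₀ hD1 (Nat.lt_succ_self j))⟩
    set j := Nat.find hex with hj
    have hj1 : ε₁ / ε < (D : ℝ) ^ (j + 1) := Nat.find_spec hex
    have hjj : j₀ < j := by
      have := (pow_lt_pow_iff_right₀ hD1).1 (hεD.trans hj1)
      omega
    have hj2 : (D : ℝ) ^ j ≤ ε₁ / ε := by
      have := Nat.find_min hex (show j - 1 < Nat.find hex by omega)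
      push Not at this
      rwa [show j - 1 + 1 = j by omega] at this
    obtain ⟨V, hV, hVc⟩ := Self.words_pow k D W hW j
    obtain ⟨L, hL⟩ := amplify ε₀ hε₀ hbad (D ^ j) (Nat.one_le_pow _ _ (by omega)) V hV ε hε
      (by
        push_cast
        rw [le_div_iff₀ hε] at hj2
        exact hj2)
    obtain ⟨C, hC⟩ := hB L
    obtain ⟨f, H, hcard⟩ := hL C
    obtain ⟨hfin, h1⟩ := hC f H
    have hcard := hcard hfin
    have h2 : (W.card : ℝ) ^ j ≤ ((Exc ε C H L f).ncard : ℝ) := by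
      have : ((V.card : ℕ) : ℝ) ≤ ((Exc ε C H L f).ncard : ℝ) := by exact_mod_cast hcard
      rwa [hVc, Nat.cast_pow] at this
    have h3 : ε ^ (-s) ≤ (W.card : ℝ) ^ j := by
      rw [hWθ, mul_pow]
      have h4 : ε ^ (-s) * (ε₁ / D) ^ s ≤ ((D : ℝ) ^ s) ^ j := by
        have e1 : ((D : ℝ) ^ s) ^ j = ((D : ℝ) ^ j) ^ s := by
          rw [← Real.rpow_natCast, ← Real.rpow_mul hD0.le, mul_comm, Real.rpow_mul hD0.le,
            Real.rpow_natCast]
        have e2 : ε ^ (-s) * (ε₁ / D) ^ s = (ε₁ / ε / D) ^ s := by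
          rw [Real.rpow_neg hε.le, ← Real.inv_rpow hε.le, ← Real.mul_rpow (by positivity) (by positivity)]
          congr 1
          field_simp
        rw [e1, e2]
        apply Real.rpow_le_rpow (by positivity) _ hs0
        rw [div_le_iff₀ hD0, ← pow_succ]
        exact hj1.le
      have h5 : (D / ε₁) ^ s ≤ θ ^ j := hj₀.le.trans (pow_le_pow_right₀ hθ1.le hjj.le)
      have h6 : (D / ε₁) ^ s * (ε₁ / D) ^ s = 1 := by
        rw [← Real.mul_rpow (by positivity) (by positivity)]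
        rw [show D / ε₁ * (ε₁ / D) = 1 by field_simp, Real.one_rpow]
      calc ε ^ (-s) = (D / ε₁) ^ s * (ε ^ (-s) * (ε₁ / D) ^ s) := by
            calc ε ^ (-s) = ε ^ (-s) * ((D / ε₁) ^ s * (ε₁ / D) ^ s) := by rw [h6, mul_one]
              _ = _ := by ring
        _ ≤ θ ^ j * ((D : ℝ) ^ s) ^ j := mul_le_mul h5 h4 (by positivity) (pow_nonneg (by linarith) _)
    linarith

end Pool.Agent.N746.NF
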